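import Mathlib
import Pool.Agent.TH143.Conv

/-!
The special sets of a quasi-projective variety which are swept out by the curves given by linear
differential equations. All of them are equal to the part of the special set `Sp_sab` swept out by
the multiplicative group.
-/

set_option autoImplicit false

namespace Pool.Agent.Results.MP_160ed4_ag.LinearDifferentialCurves

open MvPolynomial Metric Set Filter Topology
open Pool.Agent.TH143 Pool.Agent.W603.BP

/-- A holomorphic map from the punctured unit disc to the variety `F = 0`, `Q ≠ 0` with an essential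
singularity at the origin, whose homogeneous coordinates come from a solution of a linear system of
differential equations with coefficients meromorphic at the origin. -/
structure PunctCurve {N : ℕ} {ι : Type} (F : ι → MvPolynomial (Fin (N + 1)) ℂ)
    (Q : MvPolynomial (Fin (N + 1)) ℂ) (f : ℂ → Fin (N + 1) → ℂ) : Prop where
  an : ∀ j, AnalyticOnNhd ℂ (fun w => f w j) {w : ℂ | w ≠ 0 ∧ ‖w‖ < 1}
  ne : ∀ w : ℂ, w ≠ 0 → ‖w‖ < 1 → f w ≠ 0
  on : ∀ w : ℂ, w ≠ 0 → ‖w‖ < 1 → On F Q (f w)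
  lin : LinSys f
  ess : ¬ Extends f

/-- A nonconstant holomorphic map from the line to the variety `F = 0`, `Q ≠ 0`, whose homogeneous
coordinates come, near infinity, from a solution of a linear system of differential equations with
coefficients meromorphic at infinity. -/
structure EntCurve {N : ℕ} {ι : Type} (F : ι → MvPolynomial (Fin (N + 1)) ℂ)
    (Q : MvPolynomial (Fin (N + 1)) ℂ) (f : ℂ → Fin (N + 1) → ℂ) : Prop where
  an : ∀ j, Differentiable ℂ (fun z => f z j)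
  ne : ∀ z : ℂ, f z ≠ 0
  on : ∀ z : ℂ, On F Q (f z)
  lin : LinSys (fun w => f w⁻¹)
  nonconst : ∃ z w j k, f z j * f w k ≠ f z k * f w j

variable {N : ℕ} {ι : Type}

theorem eval_analytic {f : ℂ → Fin (N + 1) → ℂ} {S : Set ℂ}
    (hf : ∀ j, AnalyticOnNhd ℂ (fun w => f w j) S) (G : MvPolynomial (Fin (N + 1)) ℂ) :
    AnalyticOnNhd ℂ (fun w => eval (f w) G) S := by
  intro w hw
  have : (fun w => eval (f w) G) = fun w => ∑ α ∈ G.support, G.coeff α * ∏ j, f w j ^ α j := by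
    funext w
    rw [eval_eq']
  rw [this]
  apply Finset.analyticAt_fun_sum
  intro α _
  apply analyticAt_const.fun_mul
  apply Finset.analyticAt_fun_prod
  intro j _
  exact (hf j w hw).fun_pow _

theorem zero_of_through {P : Fin (N + 1) → Polynomial ℂ} {x : Fin (N + 1) → ℂ}
    (h : Through P x) {G : MvPolynomial (Fin (N + 1)) ℂ} {d : ℕ} (hG : G.IsHomogeneous d)
    (h0 : ∀ t, t ≠ 0 → eval (fun j => (P j).eval t) G = 0) : eval x G = 0 := by
  obtain ⟨t, c, ht, hc, h⟩ := h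
  have h1 := h0 t ht
  rw [show (fun j => (P j).eval t) = fun j => c * x j from funext h,
    Pool.Agent.H159R3.Exp.eval_smul_homog hG] at h1
  exact (mul_eq_zero.mp h1).resolve_left (pow_ne_zero _ hc)

theorem punct_local (F : ι → MvPolynomial (Fin (N + 1)) ℂ) (hF : ∀ i, ∃ d, (F i).IsHomogeneous d)
    (Q : MvPolynomial (Fin (N + 1)) ℂ) {e : ℕ} (hQ : Q.IsHomogeneous e)
    (f : ℂ → Fin (N + 1) → ℂ) (hf : PunctCurve F Q f) :
    ∃ δ > 0, δ ≤ 1 ∧ ∀ z0 : ℂ, z0 ≠ 0 → ‖z0‖ < δ → ∀ᶠ z in 𝓝[≠] z0, ∃ P, IsGmCurve F Q P ∧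
      Through P (f z) := by
  obtain ⟨δ, hδ, hδ1, h⟩ := punct_main F hF Q hQ f hf.an (fun w hw => hf.ne w hw.1 hw.2)
    (fun w hw => hf.on w hw.1 hw.2) hf.lin hf.ess
  refine ⟨δ, hδ, hδ1, fun z0 h0 h1 => ?_⟩
  filter_upwards [h z0 ⟨h0, h1⟩] with z hz
  obtain ⟨P, -, hP1, hP2⟩ := hz
  exact ⟨P, hP1, hP2⟩

theorem ent_local (F : ι → MvPolynomial (Fin (N + 1)) ℂ) (hF : ∀ i, ∃ d, (F i).IsHomogeneous d)
    (Q : MvPolynomial (Fin (N + 1)) ℂ) {e : ℕ} (hQ : Q.IsHomogeneous e)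
    (f : ℂ → Fin (N + 1) → ℂ) (hf : EntCurve F Q f) :
    ∃ R : ℝ, ∀ z0 : ℂ, R < ‖z0‖ → ∀ᶠ z in 𝓝[≠] z0, ∃ P, IsGmCurve F Q P ∧
      Through P (f z) := by
  obtain ⟨R, h⟩ := entire_main F hF Q hQ f hf.an hf.ne hf.on hf.lin hf.nonconst
  refine ⟨R, fun z0 h0 => ?_⟩
  filter_upwards [h z0 h0] with z hz
  obtain ⟨P, -, hP1, hP2⟩ := hz
  exact ⟨P, hP1, hP2⟩

/-- Let `X` be the quasi-projective variety `F = 0`, `Q ≠ 0` in projective space (an arbitrary
projective variety for `Q = 1`). Through all points of a curve in `X` given by linear differential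
equations, outside a discrete set, pass nonconstant morphisms from the multiplicative group to `X`,
and the Zariski closures of the unions of the three kinds of curves are equal. -/
theorem result (F : ι → MvPolynomial (Fin (N + 1)) ℂ) (hF : ∀ i, ∃ d, (F i).IsHomogeneous d)
    (Q : MvPolynomial (Fin (N + 1)) ℂ) {e : ℕ} (hQ : Q.IsHomogeneous e) :
    (∀ f, PunctCurve F Q f → ∃ δ > 0, ∀ z0 : ℂ, z0 ≠ 0 → ‖z0‖ < δ →
      ∀ᶠ z in 𝓝[≠] z0, ∃ P, IsGmCurve F Q P ∧ Through P (f z)) ∧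
    (∀ f, EntCurve F Q f → ∃ R : ℝ, ∀ z0 : ℂ, R < ‖z0‖ →
      ∀ᶠ z in 𝓝[≠] z0, ∃ P, IsGmCurve F Q P ∧ Through P (f z)) ∧
    (∀ Z : Set (MvPolynomial (Fin (N + 1)) ℂ), (∀ G ∈ Z, ∃ d, G.IsHomogeneous d) →
      ((∀ f, PunctCurve F Q f → ∀ w : ℂ, w ≠ 0 → ‖w‖ < 1 → ∀ G ∈ Z, eval (f w) G = 0) ↔
        ∀ P, IsGmCurve F Q P → ∀ t, t ≠ 0 → ∀ G ∈ Z, eval (fun j => (P j).eval t) G = 0) ∧
      ((∀ f, EntCurve F Q f → ∀ z, ∀ G ∈ Z, eval (f z) G = 0) ↔
        ∀ P, IsGmCurve F Q P → ∀ t, t ≠ 0 → ∀ G ∈ Z, eval (fun j => (P j).eval t) G = 0)) ∧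
    (∀ f : ℂ → Fin (N + 1) → ℂ,
      (∀ j, AnalyticOnNhd ℂ (fun w => f w j) {w : ℂ | w ≠ 0 ∧ ‖w‖ < 1}) →
      (∀ j, LinODE (fun w => f w j)) → LinSys f) ∧
    (∀ f : ℂ → Fin (N + 1) → ℂ, (∀ j, Differentiable ℂ (fun z => f z j)) →
      (∀ j, PolODE (fun z => f z j)) → LinSys (fun w => f w⁻¹)) := by
  refine ⟨fun f hf => ?_, fun f hf => ent_local F hF Q hQ f hf, fun Z hZ => ⟨⟨?_, ?_⟩, ?_, ?_⟩,
    fun f hf hl => linSys_of_linODE f one_pos hf hl, fun f hf hl => linSys_of_polODE f hf hl⟩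
  · obtain ⟨δ, hδ, -, h⟩ := punct_local F hF Q hQ f hf
    exact ⟨δ, hδ, h⟩
  · intro h P hP t ht G hG
    obtain ⟨w, hw, hwt⟩ := exists_exp_inv ht one_pos
    have h1 := h (fun w => fun j => (P j).eval (Complex.exp w⁻¹))
      ⟨fun j w hw => by
        have h2 : AnalyticAt ℂ (fun w : ℂ => Complex.exp w⁻¹) w := (analyticAt_inv hw.1).cexp
        have h3 : AnalyticAt ℂ (fun x : ℂ => (P j).eval x) (Complex.exp w⁻¹) :=
          (Polynomial.differentiable (P j)).analyticAt _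
        exact AnalyticAt.comp (g := fun x : ℂ => (P j).eval x)
          (f := fun w : ℂ => Complex.exp w⁻¹) h3 h2,
      fun w _ _ => by
        obtain ⟨j, hj⟩ := hP.ne (Complex.exp w⁻¹) (Complex.exp_ne_zero _)
        exact Function.ne_iff.mpr ⟨j, hj⟩,
      fun w _ _ => hP.mem _ (Complex.exp_ne_zero _), linSys_exp P, not_extends_exp F Q P hP⟩
      w hw.1 hw.2 G hG
    simp only [hwt] at h1
    exact h1
  · intro h f hf
    obtain ⟨δ, hδ, hδ1, hloc⟩ := punct_local F hF Q hQ f hf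
    obtain ⟨z0, hz0⟩ := PB_nonempty hδ
    intro w hw0 hw1 G hG
    obtain ⟨d, hd⟩ := hZ G hG
    have h1 : ∀ᶠ z in 𝓝[≠] z0, eval (f z) G = 0 := by
      filter_upwards [hloc z0 hz0.1 hz0.2] with z hz
      obtain ⟨P, hP1, hP2⟩ := hz
      exact zero_of_through hP2 hd (fun t ht => h P hP1 t ht G hG)
    have han := eval_analytic (S := PB 1) hf.an G
    exact han.eqOn_zero_of_preconnected_of_frequently_eq_zero (PB_preconn one_pos)
      (PB_mono hδ1 hz0) h1.frequently ⟨hw0, hw1⟩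
  · intro h P hP t ht G hG
    have h1 := h (fun z => fun j => (P j).eval (Complex.exp z))
      ⟨fun j => (Polynomial.differentiable (P j)).comp Complex.differentiable_exp,
      fun z => by
        obtain ⟨j, hj⟩ := hP.ne (Complex.exp z) (Complex.exp_ne_zero _)
        exact Function.ne_iff.mpr ⟨j, hj⟩,
      fun z => hP.mem _ (Complex.exp_ne_zero _), linSys_exp P, by
        obtain ⟨s, t, hs, ht, j, k, hst⟩ := hP.nonconst
        refine ⟨Complex.log s, Complex.log t, j, k, ?_⟩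
        simp only [Complex.exp_log hs, Complex.exp_log ht]
        exact hst⟩
      (Complex.log t) G hG
    simp only [Complex.exp_log ht] at h1
    exact h1
  · intro h f hf
    obtain ⟨R, hloc⟩ := ent_local F hF Q hQ f hf
    obtain ⟨z0, hz0⟩ : ∃ z0 : ℂ, R < ‖z0‖ := by
      refine ⟨((|R| + 1 : ℝ) : ℂ), ?_⟩
      rw [Complex.norm_real, Real.norm_of_nonneg (by positivity)]
      linarith [le_abs_self R]
    intro w G hG
    obtain ⟨d, hd⟩ := hZ G hG
    have h1 : ∀ᶠ z in 𝓝[≠] z0, eval (f z) G = 0 := by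
      filter_upwards [hloc z0 hz0] with z hz
      obtain ⟨P, hP1, hP2⟩ := hz
      exact zero_of_through hP2 hd (fun t ht => h P hP1 t ht G hG)
    have han := eval_analytic (S := univ) (fun j z _ => (hf.an j).analyticAt z) G
    exact han.eqOn_zero_of_preconnected_of_frequently_eq_zero isPreconnected_univ
      (mem_univ z0) h1.frequently (mem_univ w)

end Pool.Agent.Results.MP_160ed4_ag.LinearDifferentialCurves
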