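import Mathlib
import Pool.Agent.TH710.ND.Sp

/-!
MP_160ed4_ag, Q1: the five conditions of the generalised Green-Griffiths-Lang conjecture for
quasi-projective varieties given by nested sums of high powers of linear forms, with any number of
boundary divisors.
-/

set_option autoImplicit false

namespace Pool.Agent.Results.MP_160ed4_ag.NestedFiveConditions

open FF MvPolynomial Pool.Agent.H159R3.War Pool.Agent.H159R3.WarLog Pool.Agent.W603.BP
  Pool.Agent.W603.BPW Pool.Agent.W603.GW Pool.Agent.W603.GX Pool.Agent.W603.GY Pool.Agent.W602.GT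
open Pool.Agent.TH710.ND (IsNested)

/-- Let `X` be the quasi-projective variety `{F_i = 0, Q_j ≠ 0}` in `P^n`, where the `F_i` and the
(finitely many) `Q_j` are nested sums of high powers of linear forms: at each of at most `h + 1`
levels there are at most `s` summands and the exponents are at least
`(n + 1) (h + 1) (2 s + 1) ^ 5`.

The four special sets of `X` coincide with the union of the images of the nonconstant morphisms from
the multiplicative group: the Zariski closure of the union of the subvarieties of positive dimension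
which are not of log general type, the union of the images of the holomorphic maps from the
punctured disc with an essential singularity, the closure of the union of the entire curves, and the
closure of the union of the images of the multiplicative group. If `X` is irreducible, it is of log
general type if and only if this set is not `X`. Moreover, every variety with a generically finite
map to `X`, whose image is not contained in this set, is of log general type. -/
theorem result {n : ℕ} {ι κ : Type} [Finite κ] (F : ι → MvPolynomial (Fin (n + 1)) ℂ)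
    (Q : κ → MvPolynomial (Fin (n + 1)) ℂ) {s N h : ℕ}
    (hF : ∀ i, IsNested s N h (F i)) (hQ : ∀ j, IsNested s N h (Q j))
    (hN : (n + 1) * ((h + 1) * (2 * s + 1) ^ 5) ≤ N) :
    (SpAlgQ F Q = gmPoints F Q ∧ picPoints F Q = gmPoints F Q ∧
      zcl F Q (holPoints F Q) = gmPoints F Q ∧ zcl F Q (gmPoints F Q) = gmPoints F Q) ∧
    (∀ (K : Type) [Field K] [Algebra ℂ K] (w : ℕ) (y : Fin (n + 1) → K),
      SubVarQ F Q K w y → GenericQ F Q y →
      (LogGeneralType ℂ K w (OffAny Q y) ↔ gmPoints F Q ≠ Pts F Q)) ∧
    ∀ (K : Type) [Field K] [Algebra ℂ K] (w : ℕ) (y : Fin (n + 1) → K)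
      (G : MvPolynomial (Fin (n + 1)) ℂ) (Bd : Place ℂ K → Prop),
      MapQ F Q K w y → (∀ x ∈ gmPoints F Q, eval x G = 0) → val y G ≠ 0 →
      (∀ P, OffAny Q y P → Bd P) → LogGeneralType ℂ K w Bd := by
  obtain ⟨hNb, hN2, hN1⟩ := Pool.Agent.TH710.ND.bnd_le hN
  have hF' : ∀ i, Pool.Agent.TH710.NW.Stab (F i) := fun i =>
    (Pool.Agent.TH710.ND.tower_of hN2 hN1 (hF i)).stab
  have hQ' : ∀ j, ∃ d, Pool.Agent.TH710.NW.StabLog (Q j) d := fun j =>
    (Pool.Agent.TH710.ND.towerLog_of hN2 hN1 (hQ j)).imp fun _ h => h.stab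
  obtain ⟨h1, h2⟩ := Pool.Agent.TH710.NW.pic_eq F Q hF' hQ'
  refine ⟨⟨Set.Subset.antisymm (Pool.Agent.TH710.ND.alg_sub_gm F Q hF hQ hN)
    (Pool.Agent.TH710.NW.gm_sub_alg F Q hF' hQ'), h2, Pool.Agent.TH710.NW.special F Q hF' hQ',
    by rw [h2] at h1; exact h1⟩, fun K _ _ w y hy hg => ⟨fun h =>
    Pool.Agent.TH710.NW.ne_of_lgt hF' hQ' hy hg h, fun h =>
    Pool.Agent.TH710.ND.lgt_of_gm_ne hF hQ hN h hy hg⟩, ?_⟩
  intro K _ _ w y G Bd hy hG hGy hBd
  obtain ⟨htr, N', hN', ω, h3, h4, h5, h6⟩ :=
    Pool.Agent.TH710.ND.maps_lgt_gm hF hQ hNb hy hG hGy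
  exact ⟨htr, N', hN', ω, h3, h4, fun P hP hb => h5 P hP fun ho => hb (hBd P ho), h6⟩

end Pool.Agent.Results.MP_160ed4_ag.NestedFiveConditions
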