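import Pool.Agent.TH152.OC.Five

/-!
MP_160ed4_ag, Q1: the generalized Green–Griffiths–Lang conjecture for complements of hyperplanes in
abelian covers of projective space.
-/

set_option autoImplicit false

namespace Pool.Agent.Results.MP_160ed4_ag.OpenAbelianCovers

open FF Pool.Agent.W602.Cov Pool.Agent.W602.Cov.Cover Pool.Agent.TH152.CV Pool.Agent.TH152.BB
open Pool.Agent.W602.GT Pool.Agent.TH152.OC

/-- Let `X` be an abelian cover of projective `n`-space, with the equations
`y k ^ m k = ∏ i, ℓ i (x) ^ e k i` in a weighted projective space, where `ℓ 1, …, ℓ q` are any linear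
forms, let `U` be a set of indices and let `X_U` be the complement in `X` of the hyperplanes
`ℓ i = 0`, `i ∈ U`. Assume that `n (n + 1) (n + 2) ∑ i ∉ U, e k i < 2 m k` for all `k`, and that the
multiplicative group acts freely on the cone over `X_U`.

(1) For every closed subset `Δ` of `X_U` the following are equivalent:
all closed subvarieties of `X_U` of positive dimension not contained in `Δ` are of log general type;
all holomorphic maps from the punctured disc to `X_U` with an image not contained in `Δ` extend to the
disc;
all entire curves in `X_U` are in `Δ`;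
the images of the nonconstant morphisms from the multiplicative group to `X_U` are in `Δ`;
all split points of `X_U` are in `Δ`.

(2) Suppose that `X` is irreducible, with the function field `K`, that `n ≥ 1` and that each `ℓ i`
with `i` not in `U` occurs in an equation. The following are equivalent:
`X_U` is of log general type;
one of the first four conditions of (1) holds for some closed subset `Δ` different from `X_U` (these
are four conditions);
the arrangement of all hyperplanes `ℓ i = 0` is not reducible. -/
theorem result {n q r : ℕ} {X : Cover n q r} {U : Finset (Fin q)} (hB : BigU X U)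
    (hF : X.FreeU U) :
    (∀ Δ : Set ((Fin (n + 1) → ℂ) × (Fin r → ℂ)), ClosedU X U Δ →
      [SubU X U Δ, PicardU X U Δ, BrodyU X U Δ, GmU X U Δ,
        ∀ v, SplitU X U v → v ∈ Δ].TFAE) ∧
    (1 ≤ n → (∀ i, i ∉ U → ∃ k, 0 < X.e k i) →
      ∀ {K : Type} [Field K] [Algebra ℂ K] {x : Fin (n + 1) → K} {y : Fin r → K},
      X.FunctionField K x y →
      [LogGeneralType ℂ K n (OffU X U x), PseudoU X U (SubU X U), PseudoU X U (PicardU X U),
        PseudoU X U (BrodyU X U), PseudoU X U (GmU X U), ¬ Reducible X.ℓ].TFAE) :=
  ⟨fun _ hΔ => five_sets hB hF hΔ, fun hn hU {_} _ _ {_ _} hK => five_tfae hn hB hF hU hK⟩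

end Pool.Agent.Results.MP_160ed4_ag.OpenAbelianCovers
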