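import Mathlib
import Pool.Agent.TH182.VD.Main

/-!
The open strata of very general divisors of total degree at least `2 dim X + 1` on an arbitrary
projective variety `X` contain no nonconstant image of the multiplicative group, and no nonconstant
curves given by linear differential equations.
-/

set_option autoImplicit false

namespace Pool.Agent.Results.MP_160ed4_ag.VeryGeneralDivisors

open MvPolynomial Metric Set Filter Topology
open Pool.Agent.TH143 Pool.Agent.W603.BP Pool.Agent.TH182.VD

variable {N q : ℕ} {κ : Type}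

/-- The point with homogeneous coordinates `x` lies on all `G i = 0` and on the hypersurfaces
`F i = 0` with `i ∈ Z`, and on no hypersurface `F i = 0` with `i ∉ Z`. -/
def InStratum (G : κ → MvPolynomial (Fin (N + 1)) ℂ) (F : Fin q → MvPolynomial (Fin (N + 1)) ℂ)
    (Z : Finset (Fin q)) (x : Fin (N + 1) → ℂ) : Prop :=
  (∀ i, eval x (G i) = 0) ∧ (∀ i ∈ Z, eval x (F i) = 0) ∧ ∀ i, i ∉ Z → eval x (F i) ≠ 0

/-- The polynomials `P`, without common zeros outside the origin, define a nonconstant morphism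
from the multiplicative group to the stratum. -/
structure GmCurve (G : κ → MvPolynomial (Fin (N + 1)) ℂ)
    (F : Fin q → MvPolynomial (Fin (N + 1)) ℂ) (Z : Finset (Fin q))
    (P : Fin (N + 1) → Polynomial ℂ) : Prop where
  ne : ∀ t, t ≠ 0 → ∃ j, (P j).eval t ≠ 0
  mem : ∀ t, t ≠ 0 → InStratum G F Z (fun j => (P j).eval t)
  nonconst : ∃ s t, s ≠ 0 ∧ t ≠ 0 ∧ ∃ j k, (P j).eval s * (P k).eval t ≠ (P k).eval s * (P j).eval t

/-- A holomorphic map from the punctured unit disc to the stratum with an essential singularity at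
the origin, whose homogeneous coordinates come from a solution of a linear system of differential
equations with coefficients meromorphic at the origin. -/
structure PunctCurve (G : κ → MvPolynomial (Fin (N + 1)) ℂ)
    (F : Fin q → MvPolynomial (Fin (N + 1)) ℂ) (Z : Finset (Fin q))
    (f : ℂ → Fin (N + 1) → ℂ) : Prop where
  an : ∀ j, AnalyticOnNhd ℂ (fun w => f w j) {w : ℂ | w ≠ 0 ∧ ‖w‖ < 1}
  ne : ∀ w : ℂ, w ≠ 0 → ‖w‖ < 1 → f w ≠ 0
  mem : ∀ w : ℂ, w ≠ 0 → ‖w‖ < 1 → InStratum G F Z (f w)
  lin : LinSys f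
  ess : ¬ Extends f

/-- A nonconstant holomorphic map from the line to the stratum, whose homogeneous coordinates come,
near infinity, from a solution of a linear system of differential equations with coefficients
meromorphic at infinity. -/
structure EntCurve (G : κ → MvPolynomial (Fin (N + 1)) ℂ)
    (F : Fin q → MvPolynomial (Fin (N + 1)) ℂ) (Z : Finset (Fin q))
    (f : ℂ → Fin (N + 1) → ℂ) : Prop where
  an : ∀ j, Differentiable ℂ (fun z => f z j)
  ne : ∀ z : ℂ, f z ≠ 0
  mem : ∀ z : ℂ, InStratum G F Z (f z)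
  lin : LinSys (fun w => f w⁻¹)
  nonconst : ∃ z w j k, f z j * f w k ≠ f z k * f w j

theorem on_of_mem {G : κ → MvPolynomial (Fin (N + 1)) ℂ}
    {F : Fin q → MvPolynomial (Fin (N + 1)) ℂ} {Z : Finset (Fin q)} {x : Fin (N + 1) → ℂ}
    (h : InStratum G F Z x) : On (Sum.elim G (fun i : {i // i ∈ Z} => F i.1))
      (∏ i ∈ Finset.univ \ Z, F i) x := by
  obtain ⟨h1, h2, h3⟩ := h
  refine ⟨?_, ?_⟩
  · rintro (i | i)
    · exact h1 i
    · exact h2 i.1 i.2
  · rw [map_prod, Finset.prod_ne_zero_iff]
    intro i hi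
    exact h3 i (Finset.mem_sdiff.mp hi).2

/-- Let `X` be a closed subset of the projective space of dimension at most `m`, given by forms
`G i` (the ring of homogeneous coordinates has transcendence degree at most `m + 1`). There is a
countable subfield `k₁` of `ℂ`, depending only on `X`, such that for all forms `F i`, `i < q`, of
degrees `d i`, whose coefficients together are algebraically independent over `k₁`, and for each set
`Z` of indices with `∑ d i + #Z ≥ 2 m + 1`, there is no nonconstant morphism from the multiplicative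
group, no curve with an essential singularity given by a linear differential system and no entire
curve given by a linear differential system in the set of the points of `X` which lie on `F i = 0`
exactly for `i ∈ Z`. The last two statements express that curves given by scalar linear differential
equations are given by linear differential systems. -/
theorem result {m : ℕ} (G : κ → MvPolynomial (Fin (N + 1)) ℂ)
    (hG : ∀ i, ∃ n, (G i).IsHomogeneous n)
    (hdim : Algebra.trdeg ℂ (MvPolynomial (Fin (N + 1)) ℂ ⧸ Ideal.span (Set.range G)) ≤ m + 1) :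
    (∃ k₁ : Subfield ℂ, Countable k₁ ∧ ∀ (q : ℕ) (d : Fin q → ℕ)
      (F : Fin q → MvPolynomial (Fin (N + 1)) ℂ), (∀ i, (F i).IsHomogeneous (d i)) →
      AlgebraicIndependent k₁
        (fun x : (i : Fin q) × {α : Fin (N + 1) →₀ ℕ // α.degree = d i} =>
          coeff x.2.1 (F x.1)) →
      ∀ Z : Finset (Fin q), 2 * m + 1 ≤ ∑ i, d i + Z.card →
        (∀ P, ¬ GmCurve G F Z P) ∧ (∀ f, ¬ PunctCurve G F Z f) ∧ ∀ f, ¬ EntCurve G F Z f) ∧
    (∀ f : ℂ → Fin (N + 1) → ℂ,
      (∀ j, AnalyticOnNhd ℂ (fun w => f w j) {w : ℂ | w ≠ 0 ∧ ‖w‖ < 1}) →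
      (∀ j, LinODE (fun w => f w j)) → LinSys f) ∧
    (∀ f : ℂ → Fin (N + 1) → ℂ, (∀ j, Differentiable ℂ (fun z => f z j)) →
      (∀ j, PolODE (fun z => f z j)) → LinSys (fun w => f w⁻¹)) := by
  refine ⟨?_, fun f hf hl => linSys_of_linODE f one_pos hf hl,
    fun f hf hl => linSys_of_polODE f hf hl⟩
  obtain ⟨k₁, hk₁, hmain⟩ := main G hG hdim
  refine ⟨k₁, hk₁, fun q d F hF hind Z hZ => ?_⟩
  have hno := hmain q d F hF hind Z hZ
  have hQh : (∏ i ∈ Finset.univ \ Z, F i).IsHomogeneous (∑ i ∈ Finset.univ \ Z, d i) :=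
    IsHomogeneous.prod _ _ _ fun i _ => hF i
  have hFh : ∀ i, ∃ d', (Sum.elim G (fun i : {i // i ∈ Z} => F i.1) i).IsHomogeneous d' := by
    intro i
    rcases i with i | i
    · exact hG i
    · exact ⟨d i.1, hF i.1⟩
  refine ⟨fun P hP => ?_, fun f hf => ?_, fun f hf => ?_⟩
  · exact hno P ⟨hP.ne, fun t ht => on_of_mem (hP.mem t ht), hP.nonconst⟩
  · obtain ⟨δ, hδ, hδ1, h⟩ := punct_main _ hFh _ hQh f hf.an (fun w hw => hf.ne w hw.1 hw.2)
      (fun w hw => on_of_mem (hf.mem w hw.1 hw.2)) hf.lin hf.ess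
    obtain ⟨z0, hz0⟩ := PB_nonempty hδ
    obtain ⟨z, P, -, hP, -⟩ := (h z0 hz0).exists
    exact hno P hP
  · obtain ⟨R, h⟩ := entire_main _ hFh _ hQh f hf.an hf.ne (fun w => on_of_mem (hf.mem w)) hf.lin
      hf.nonconst
    obtain ⟨z0, hz0⟩ : ∃ z0 : ℂ, R < ‖z0‖ := by
      refine ⟨((|R| + 1 : ℝ) : ℂ), ?_⟩
      rw [Complex.norm_real, Real.norm_of_nonneg (by positivity)]
      linarith [le_abs_self R]
    obtain ⟨z, P, -, hP, -⟩ := (h z0 hz0).exists
    exact hno P hP

end Pool.Agent.Results.MP_160ed4_ag.VeryGeneralDivisors
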